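import Pool.Agent.Helper79.NC.Spec

/-!
# Lifting homotopies through closed geodesics (module NC-G3 for `MP_4787eb_gt`)
-/

namespace Pool.Agent.Helper61.NC

open Pool.Agent.Helper79.NC
open scoped ContDiff Topology

section Cover

variable {Γ : Type} [Group Γ] [MulAction Γ E3] {g : E3 → E3 →L[ℝ] E3 →L[ℝ] ℝ}

theorem isQuotientCoveringMap_proj (hM : PresentsClosedManifold Γ g) :
    IsQuotientCoveringMap (proj Γ : E3 → QuotM E3 Γ) Γ := by
  have : ContinuousConstSMul Γ E3 := ⟨fun γ => (hM.smooth γ).continuous⟩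
  have : ProperlyDiscontinuousSMul Γ E3 :=
    ⟨fun hK hL => hM.properlyDiscontinuous _ _ hK hL⟩
  have : IsCancelSMul Γ E3 :=
    isCancelSMul_iff_eq_one_of_smul_eq.mpr (fun γ x h => hM.free γ x h)
  exact isQuotientCoveringMap_quotientMk_of_properlyDiscontinuousSMul

/-- Two lifts of the same map from a connected space differ by a deck transformation. -/
theorem exists_deck (hM : PresentsClosedManifold Γ g) {A : Type*} [TopologicalSpace A]
    [PreconnectedSpace A] (p₀ : A) {a b : A → E3} (ha : Continuous a) (hb : Continuous b)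
    (h : ∀ t, proj Γ (a t) = proj Γ (b t)) : ∃ δ : Γ, ∀ t, a t = δ • b t := by
  have hq := isQuotientCoveringMap_proj hM
  obtain ⟨δ, hδ⟩ := hq.apply_eq_iff_mem_orbit.mp (h p₀)
  have hδb : Continuous fun t => δ • b t := (hM.smooth δ).continuous.comp hb
  refine ⟨δ, fun t => ?_⟩
  refine congrFun (hq.isCoveringMap.eq_of_comp_eq ha hδb ?_ p₀ hδ.symm) t
  funext t
  simp only [Function.comp_apply]
  rw [h t]
  exact (hq.map_smul δ).symm

theorem fderiv_smul_ne_zero (hM : PresentsClosedManifold Γ g) (δ : Γ) (x v : E3) (hv : v ≠ 0) :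
    fderiv ℝ (fun y : E3 => δ • y) x v ≠ 0 := by
  intro h0
  have h1 := hM.isometry δ x v v
  rw [h0] at h1
  have h2 := hM.metric.pos x v hv
  simp only [map_zero] at h1
  linarith

theorem isGeodesic_smul (hI : IsoGeodesic) (hM : PresentsClosedManifold Γ g) (δ : Γ)
    {c : ℝ → E3} (hc : IsGeodesic g c) : IsGeodesic g (fun t => δ • c t) :=
  hI g (fun x => δ • x) (fun x => δ⁻¹ • x) hM.metric (hM.smooth δ) (hM.smooth δ⁻¹)
    (fun x => inv_smul_smul δ x) (fun x => smul_inv_smul δ x) (hM.isometry δ) c hc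

end Cover

theorem liftHomotopy (hI : IsoGeodesic) : LiftHomotopy := by
  intro Γ _ _ g hM T c₀ c₁ γ₀ γ₁ hc₀ hc₁ hT hγ₀ hγ₁ hH
  obtain ⟨H, hH⟩ := hH
  have hq := isQuotientCoveringMap_proj hM
  have hcov := hq.isCoveringMap
  let F : C(unitInterval × ℝ, QuotM E3 Γ) :=
    ⟨fun p => H (p.1, (p.2 : AddCircle (1 : ℝ))),
      H.continuous.comp (continuous_fst.prodMk
        ((AddCircle.continuous_mk' (1 : ℝ)).comp continuous_snd))⟩
  have hF0 : ∀ a : ℝ, F (0, a) = proj Γ ((⟨c₀, hc₀.smooth.continuous⟩ : C(ℝ, E3)) a) := by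
    intro a
    show H (0, (a : AddCircle (1 : ℝ))) = proj Γ (c₀ a)
    rw [H.apply_zero, hγ₀]
  let L := hcov.liftHomotopy F ⟨c₀, hc₀.smooth.continuous⟩ hF0
  have hL : ∀ p, proj Γ (L p) = H (p.1, (p.2 : AddCircle (1 : ℝ))) := fun p =>
    congrFun (hcov.liftHomotopy_lifts F ⟨c₀, hc₀.smooth.continuous⟩ hF0) p
  have hL0 : ∀ t, L (0, t) = c₀ t := fun t =>
    hcov.liftHomotopy_zero F ⟨c₀, hc₀.smooth.continuous⟩ hF0 t
  have hLc : Continuous L := L.continuous
  -- geodesics
  have hgeo : ∀ s : unitInterval, IsGeodesic g (fun t => L (s, t)) ∧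
      (∃ t, deriv (fun t => L (s, t)) t ≠ 0) := by
    intro s
    obtain ⟨c, hc, ⟨t₁, ht₁⟩, hpc⟩ := hH s
    obtain ⟨δ, hδ⟩ := exists_deck hM (A := ℝ) 0 (a := fun t => L (s, t)) (b := c)
      (hLc.comp (by fun_prop)) hc.smooth.continuous (fun t => by
        rw [hL, ← hpc t]; rfl)
    have hfun : (fun t => L (s, t)) = fun t => δ • c t := funext hδ
    rw [hfun]
    refine ⟨isGeodesic_smul hI hM δ hc, t₁, ?_⟩
    have hd : HasDerivAt (fun t => δ • c t)
        (fderiv ℝ (fun y : E3 => δ • y) (c t₁) (deriv c t₁)) t₁ := by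
      have h1 : HasFDerivAt (fun y : E3 => δ • y) (fderiv ℝ (fun y : E3 => δ • y) (c t₁)) (c t₁) :=
        ((hM.smooth δ).differentiable (by simp)).differentiableAt.hasFDerivAt
      have h2 : HasDerivAt c (deriv c t₁) t₁ :=
        (hc.smooth.differentiable (by simp)).differentiableAt.hasDerivAt
      exact h1.comp_hasDerivAt t₁ h2
    rw [hd.deriv]
    exact fderiv_smul_ne_zero hM δ _ _ ht₁
  -- invariance
  have hinv : ∀ p : unitInterval × ℝ, L (p.1, p.2 + 1) = T • L p := by
    intro p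
    have h1 : Continuous fun p : unitInterval × ℝ => L (p.1, p.2 + 1) := hLc.comp (by fun_prop)
    have h2 : Continuous fun p : unitInterval × ℝ => T • L p := (hM.smooth T).continuous.comp hLc
    refine congrFun (hcov.eq_of_comp_eq h1 h2 ?_ ((0 : unitInterval), (0 : ℝ)) ?_) p
    · funext q
      simp only [Function.comp_apply]
      rw [hL, hq.map_smul T, hL]
      simp
    · show L (0, (0 : ℝ) + 1) = T • L (0, 0)
      rw [hL0, hL0, hT]
  refine ⟨fun s t => L (Set.projIcc 0 1 zero_le_one s, t), ?_, ?_, ?_, ?_⟩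
  · refine Continuous.continuousOn ?_
    exact hLc.comp ((continuous_projIcc.comp continuous_fst).prodMk continuous_snd)
  · funext t
    have : Set.projIcc (0 : ℝ) 1 zero_le_one 0 = (0 : unitInterval) := Set.projIcc_left _
    simp only [this]
    exact hL0 t
  · intro s hs
    have h := hgeo (Set.projIcc 0 1 zero_le_one s)
    exact ⟨h.1, h.2, fun t => hinv (Set.projIcc 0 1 zero_le_one s, t)⟩
  · have h1 : Set.projIcc (0 : ℝ) 1 zero_le_one 1 = (1 : unitInterval) := Set.projIcc_right _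
    simp only [h1]
    refine exists_deck hM (A := ℝ) 0 (a := fun t => L (1, t)) (b := c₁)
      (hLc.comp (by fun_prop)) hc₁.smooth.continuous (fun t => ?_)
    rw [hL, ← hγ₁ t]
    exact H.apply_one _

end Pool.Agent.Helper61.NC
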